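import Pool.Agent.P8H90.AP.DefsA

/-!
# Project AP, package MC: the matroid of algebraic independence over a subfield (copy of
Pool/Agent/P8H10/MatF.lean of helper10 and of the end of Pool/Agent/P8H73/PZ/Beyond.lean of helper73)
-/

set_option autoImplicit false

open Set

namespace Pool.Agent.P8H57.AP.MC

variable {E : Type} [Field E] {F : Subfield E}

/-- the matroid of algebraic independence over `F` -/
noncomputable abbrev Mt {E : Type} [Field E] (F : Subfield E) : Matroid E := AlgebraicIndependent.matroid F E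

lemma mem_cl_iff {S : Set E} {x : E} : x ∈ (Mt F).closure S ↔ IsAlgebraic (Algebra.adjoin F S) x := by
  rw [AlgebraicIndependent.matroid_closure_eq]
  exact Iff.rfl

open scoped IntermediateField.algebraAdjoinAdjoin in
lemma mem_cl_iff' {S : Set E} {x : E} : x ∈ (Mt F).closure S ↔ IsAlgebraic (IntermediateField.adjoin F S) x := by
  rw [mem_cl_iff]
  exact IsFractionRing.isAlgebraic_iff (Algebra.adjoin F S) (IntermediateField.adjoin F S) E

/-- the closure as an intermediate field -/
noncomputable def clF {E : Type} [Field E] (F : Subfield E) (S : Set E) : Subfield E where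
  carrier := (Mt F).closure S
  mul_mem' := fun ha hb => mem_cl_iff.2 ((mem_cl_iff.1 ha).mul (mem_cl_iff.1 hb))
  one_mem' := mem_cl_iff.2 isAlgebraic_one
  add_mem' := fun ha hb => mem_cl_iff.2 ((mem_cl_iff.1 ha).add (mem_cl_iff.1 hb))
  zero_mem' := mem_cl_iff.2 isAlgebraic_zero
  neg_mem' := fun ha => mem_cl_iff.2 (mem_cl_iff.1 ha).neg
  inv_mem' := fun _ ha => mem_cl_iff.2 (mem_cl_iff.1 ha).inv

lemma mem_clF {S : Set E} {x : E} : x ∈ clF F S ↔ IsAlgebraic (IntermediateField.adjoin F S) x := mem_cl_iff'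

lemma mem_clF' {S : Set E} {x : E} : x ∈ clF F S ↔ x ∈ (Mt F).closure S := Iff.rfl

lemma subset_clF (S : Set E) : S ⊆ clF F S := Matroid.subset_closure (Mt F) S (subset_univ _)

lemma clF_mono {S T : Set E} (h : S ⊆ T) : clF F S ≤ clF F T := Matroid.closure_subset_closure (Mt F) h

lemma clF_le {S T : Set E} (h : S ⊆ clF F T) : clF F S ≤ clF F T :=
  Matroid.closure_subset_closure_of_subset_closure h

/-- an element one of whose nonzero powers is in the closure is in the closure -/
lemma of_pow {S : Set E} {x : E} {n : ℕ} (hn : n ≠ 0) (h : x ^ n ∈ clF F S) : x ∈ clF F S :=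
  mem_cl_iff.2 (IsAlgebraic.of_pow (Nat.pos_of_ne_zero hn) (mem_cl_iff.1 h))

lemma card_le {ι : Type*} [Fintype ι] {x : ι → E} (hx : AlgebraicIndependent F x) {T : Set E} (h : ∀ i, x i ∈ clF F T) :
    (Fintype.card ι : ℕ∞) ≤ (Mt F).eRk T := by
  have h1 : (Mt F).Indep (range x) := hx.to_subtype_range
  have h2 : range x ⊆ (Mt F).closure T := by
    rintro _ ⟨i, rfl⟩
    exact h i
  calc (Fintype.card ι : ℕ∞) = (range x).encard := by
        rw [← image_univ, hx.injective.injOn.encard_image, encard_univ, ENat.card_eq_coe_fintype_card]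
    _ ≤ (Mt F).eRk ((Mt F).closure T) := h1.encard_le_eRk_of_subset h2
    _ = (Mt F).eRk T := Matroid.eRk_closure_eq (Mt F) T

lemma card_le_card {ι κ : Type*} [Fintype ι] [Fintype κ] {x : ι → E} (hx : AlgebraicIndependent F x) {y : κ → E}
    (h : ∀ i, x i ∈ clF F (range y)) : Fintype.card ι ≤ Fintype.card κ := by
  have h1 := card_le hx h
  have h2 : (range y).encard ≤ Fintype.card κ := by
    rw [← image_univ, ← ENat.card_eq_coe_fintype_card, ← encard_univ]
    exact encard_image_le _ _
  exact_mod_cast h1.trans ((Matroid.eRk_le_encard _ _).trans h2)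

/-- as many elements spanning independent elements are independent -/
lemma indep_of_span {ι κ : Type*} [Fintype ι] [Fintype κ] {x : ι → E} (hx : AlgebraicIndependent F x) {y : κ → E}
    (h : ∀ i, x i ∈ clF F (range y)) (hc : Fintype.card κ ≤ Fintype.card ι) : AlgebraicIndependent F y := by
  have h1 := card_le hx h
  have h2 : (range y).encard ≤ Fintype.card κ := by
    rw [← image_univ, ← ENat.card_eq_coe_fintype_card, ← encard_univ]
    exact encard_image_le _ _
  have h3 : (Fintype.card κ : ℕ∞) ≤ (range y).encard :=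
    (by exact_mod_cast hc : (Fintype.card κ : ℕ∞) ≤ Fintype.card ι).trans (h1.trans (Matroid.eRk_le_encard _ _))
  have hfin : (range y).Finite := finite_range y
  have h4 : (Mt F).Indep (range y) := by
    refine ((Mt F).isRkFinite_of_finite hfin).indep_of_encard_le_eRk ?_
    exact h2.trans ((by exact_mod_cast hc : (Fintype.card κ : ℕ∞) ≤ Fintype.card ι).trans h1)
  have hinj : Function.Injective y := by
    rw [← injOn_univ]
    refine Finite.injOn_of_encard_image_eq finite_univ ?_
    rw [image_univ]
    refine le_antisymm (h2.trans ?_) ?_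
    · rw [encard_univ, ENat.card_eq_coe_fintype_card]
    · rw [encard_univ, ENat.card_eq_coe_fintype_card]; exact h3
  exact (algebraicIndependent_subtype_range hinj).1 h4

lemma AlgebraicIndependent.of_aeval_aux (K : IntermediateField F E) {ι : Type*} (f : ι → K)
    (h : AlgebraicIndependent F (fun i => (f i : E))) : AlgebraicIndependent F f := by
  have h1 : Function.Injective K.val := K.val.injective
  exact (K.val.algebraicIndependent_iff h1).1 h

/-- a lower bound for the transcendence degree of a generated field -/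
lemma trdeg_ge {ι : Type*} [Fintype ι] {x : ι → E} (hx : AlgebraicIndependent F x) {A : Set E} (h : ∀ i, x i ∈ clF F A) :
    (Fintype.card ι : Cardinal) ≤ Algebra.trdeg F (IntermediateField.adjoin F A) := by
  obtain ⟨I, hI⟩ := (Mt F).exists_isBasis A (subset_univ _)
  have h1 := card_le hx h
  rw [← hI.encard_eq_eRk] at h1
  obtain ⟨t, htI, htc⟩ := exists_subset_encard_eq h1
  have hfin : t.Finite := by
    rw [← encard_lt_top_iff, htc]
    exact ENat.natCast_lt_top _
  have hind : AlgebraicIndependent F (fun i : t => (i : E)) := hI.indep.subset htI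
  have htA : ∀ i : t, (i : E) ∈ IntermediateField.adjoin F A := fun i =>
    IntermediateField.subset_adjoin F A (hI.subset (htI i.2))
  let f : t → IntermediateField.adjoin F A := fun i => ⟨i, htA i⟩
  have hf : AlgebraicIndependent F f :=
    AlgebraicIndependent.of_aeval_aux (IntermediateField.adjoin F A) f hind
  have := hfin.fintype
  have h2 := hf.cardinalMk_le_trdeg
  refine le_trans (le_of_eq ?_) h2
  have h3 : ((Fintype.card ι : ℕ) : ℕ∞) = ((Fintype.card t : ℕ) : ℕ∞) := by
    rw [← htc, ← ENat.card_eq_coe_fintype_card, Set.encard]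
  have h4 : Fintype.card ι = Fintype.card t := by exact_mod_cast h3
  rw [Cardinal.mk_fintype, h4]



lemma trdeg_ge_add {ι : Type*} [Fintype ι] {x : ι → E} (hx : AlgebraicIndependent F x) {A : Set E} {r : ℕ}
    (y : Fin r → E) (h : ∀ i, x i ∈ clF F (A ∪ range y)) :
    (Fintype.card ι : Cardinal) ≤ Algebra.trdeg F (IntermediateField.adjoin F A) + r := by
  obtain ⟨I, hI⟩ := (Mt F).exists_isBasis A (subset_univ _)
  have h1 := card_le hx h
  have h2 : (Mt F).eRk (A ∪ range y) ≤ I.encard + r := by
    refine ((Mt F).eRk_union_le_eRk_add_eRk _ _).trans ?_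
    rw [hI.encard_eq_eRk]
    refine add_le_add le_rfl ((Matroid.eRk_le_encard _ _).trans ?_)
    rw [← image_univ]
    refine (encard_image_le _ _).trans ?_
    rw [encard_univ, ENat.card_eq_coe_fintype_card, Fintype.card_fin]
  have h3 : ((Fintype.card ι - r : ℕ) : ℕ∞) ≤ I.encard := by
    have h4 := h1.trans h2
    rcases eq_or_ne I.encard ⊤ with h5 | h5
    · rw [h5]
      exact le_top
    · obtain ⟨m, hm⟩ := ENat.ne_top_iff_exists.1 h5
      rw [← hm] at h4 ⊢
      have h6 : Fintype.card ι ≤ m + r := by exact_mod_cast h4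
      have h7 : Fintype.card ι - r ≤ m := by omega
      exact_mod_cast h7
  obtain ⟨t, htI, htc⟩ := exists_subset_encard_eq h3
  have hfin : t.Finite := by
    rw [← encard_lt_top_iff, htc]
    exact ENat.natCast_lt_top _
  have hind : AlgebraicIndependent F (fun i : t => (i : E)) := hI.indep.subset htI
  have htA : ∀ i : t, (i : E) ∈ IntermediateField.adjoin F A := fun i =>
    IntermediateField.subset_adjoin F A (hI.subset (htI i.2))
  let f : t → IntermediateField.adjoin F A := fun i => ⟨i, htA i⟩
  have hf : AlgebraicIndependent F f :=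
    AlgebraicIndependent.of_aeval_aux (IntermediateField.adjoin F A) f hind
  have := hfin.fintype
  have h5 := hf.cardinalMk_le_trdeg
  have h6 : ((Fintype.card ι - r : ℕ) : ℕ∞) = ((Fintype.card t : ℕ) : ℕ∞) := by
    rw [← htc, ← ENat.card_eq_coe_fintype_card, Set.encard]
  have h7 : Fintype.card ι - r = Fintype.card t := by exact_mod_cast h6
  rw [Cardinal.mk_fintype, ← h7] at h5
  calc (Fintype.card ι : Cardinal) ≤ ((Fintype.card ι - r + r : ℕ) : Cardinal) := by
        exact_mod_cast (by omega : Fintype.card ι ≤ Fintype.card ι - r + r)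
    _ = ((Fintype.card ι - r : ℕ) : Cardinal) + r := by push_cast; rfl
    _ ≤ _ := by gcongr

/-- counting -/
lemma count0 {ι κ : Type*} [Fintype ι] [Fintype κ] {x : ι → E} (hx : AlgebraicIndependent F x) {y : κ → E}
    (S : Finset κ) (hS : ∀ k ∈ S, y k ∈ clF F ∅) (h : ∀ i, x i ∈ clF F (range y)) :
    Fintype.card ι + S.card ≤ Fintype.card κ := by
  classical
  have h1 : clF F (range y) ≤ clF F (y '' (Sᶜ : Finset κ)) := by
    refine clF_le ?_
    rintro z ⟨k, rfl⟩
    by_cases hk : k ∈ S
    · exact clF_mono (empty_subset _) (hS k hk)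
    · refine subset_clF _ ⟨k, ?_, rfl⟩
      simpa using hk
  have h2 := card_le hx (fun i => h1 (h i))
  have h3 : (y '' (Sᶜ : Finset κ) : Set E).encard ≤ (((Sᶜ : Finset κ).card : ℕ) : ℕ∞) := by
    have e : (((Sᶜ : Finset κ) : Set κ)).encard = ((Sᶜ : Finset κ).card : ℕ∞) := encard_coe_eq_coe_finsetCard _
    rw [← e]
    exact encard_image_le _ _
  have h4 : (Fintype.card ι : ℕ∞) ≤ (((Sᶜ : Finset κ).card : ℕ) : ℕ∞) := h2.trans ((Matroid.eRk_le_encard _ _).trans h3)
  have h5 : Fintype.card ι ≤ (Sᶜ : Finset κ).card := by exact_mod_cast h4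
  rw [Finset.card_compl] at h5
  have h6 := Finset.card_le_univ S
  omega

lemma mem_empty {z : E} (h : IsAlgebraic F z) : z ∈ clF F ∅ :=
  mem_cl_iff.2 (h.extendScalars (S := Algebra.adjoin F (∅ : Set E)) (algebraMap F (Algebra.adjoin F (∅ : Set E))).injective)

/-- counting for `v - z i` -/
theorem countK {ι : Type} {z : ι → E} (hz : AlgebraicIndependent F z) (v : ι → E) {r : ℕ} (y : Fin r → E)
    (hv : ∀ i, v i ∈ clF F (range y)) (t : Finset (Fin r ⊕ ι))
    (ht : ∀ i ∈ t, Sum.elim y (fun i => v i - z i) i ∈ clF F ∅) : t.card ≤ r := by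
  classical
  obtain ⟨S, hSm, hSm'⟩ : ∃ S : Finset ι, (∀ n : ι, Sum.inr n ∈ t → n ∈ S) ∧
      ∀ n ∈ S, Sum.inr n ∈ t := by
    refine ⟨t.biUnion fun i => Sum.elim (fun _ => ∅) (fun p => {p}) i,
      fun p hp => Finset.mem_biUnion.2 ⟨_, hp, by simp⟩, fun p hp => ?_⟩
    obtain ⟨i, hi, hxi⟩ := Finset.mem_biUnion.1 hp
    rcases i with i | q
    · simp at hxi
    · simp only [Sum.elim_inr, Finset.mem_singleton] at hxi
      subst hxi
      exact hi
  have hAI : AlgebraicIndependent F (fun i : S => z i.1) := hz.comp _ Subtype.val_injective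
  obtain ⟨emb, hembd⟩ : ∃ emb : Fin r ⊕ S → Fin r ⊕ ι, emb = Sum.map id Subtype.val := ⟨_, rfl⟩
  have hemb : Function.Injective emb := by
    rw [hembd]
    exact Function.Injective.sumMap Function.injective_id Subtype.val_injective
  obtain ⟨S', hS'd⟩ : ∃ S' : Finset (Fin r ⊕ S), S' = t.preimage emb hemb.injOn := ⟨_, rfl⟩
  have hS'card : S'.card = t.card := by
    rw [hS'd, Finset.card_preimage, Finset.filter_true_of_mem]
    intro i hi
    rw [hembd]
    rcases i with i | p
    · exact ⟨Sum.inl i, rfl⟩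
    · exact ⟨Sum.inr ⟨p, hSm p hi⟩, rfl⟩
  obtain ⟨yy, hyy⟩ : ∃ yy : Fin r ⊕ S → E, yy = fun k => Sum.elim y (fun i => v i - z i) (emb k) := ⟨_, rfl⟩
  have hh : ∀ k ∈ S', yy k ∈ clF F ∅ := by
    intro k hk
    rw [hyy]
    rw [hS'd] at hk
    exact ht (emb k) (Finset.mem_preimage.1 hk)
  have h2 : ∀ i : S, z i.1 ∈ clF F (range yy) := by
    intro i
    have e : z i.1 = v i.1 - (v i.1 - z i.1) := by ring
    rw [e]
    refine (clF F _).sub_mem (clF_mono ?_ (hv i.1)) (subset_clF _ ⟨Sum.inr i, ?_⟩)
    · rintro _ ⟨j, rfl⟩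
      exact ⟨Sum.inl j, by rw [hyy, hembd]; rfl⟩
    · rw [hyy, hembd]
      rfl
  have key := count0 hAI S' hh h2
  rw [Fintype.card_coe, Fintype.card_sum, Fintype.card_fin, Fintype.card_coe, hS'card] at key
  omega

theorem trdegK {ι : Type} {z : ι → E} (hz : AlgebraicIndependent F z) (v : ι → E) {r : ℕ} (y : Fin r → E)
    (hv : ∀ i, v i ∈ clF F (range y)) (S : Finset ι) :
    (S.card : Cardinal) ≤ Algebra.trdeg F (IntermediateField.adjoin F
      (range y ∪ (fun i => v i - z i) '' (S : Set ι))) ∧
    (S.card : Cardinal) ≤ Algebra.trdeg F (IntermediateField.adjoin F ((fun i => v i - z i) '' (S : Set ι))) + r := by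
  have hAI : AlgebraicIndependent F (fun i : S => z i.1) := hz.comp _ Subtype.val_injective
  constructor
  · have h := trdeg_ge hAI (A := range y ∪ (fun i => v i - z i) '' (S : Set ι)) (fun i => by
      have e : z i.1 = v i.1 - (v i.1 - z i.1) := by ring
      rw [e]
      exact (clF F _).sub_mem (clF_mono subset_union_left (hv i.1)) (subset_clF _ (Or.inr ⟨i.1, i.2, rfl⟩)))
    rwa [Fintype.card_coe] at h
  · have h := trdeg_ge_add hAI (A := (fun i => v i - z i) '' (S : Set ι)) y (fun i => by
      have e : z i.1 = v i.1 - (v i.1 - z i.1) := by ring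
      rw [e]
      exact (clF F _).sub_mem (clF_mono subset_union_right (hv i.1)) (subset_clF _ (Or.inl ⟨i.1, i.2, rfl⟩)))
    rwa [Fintype.card_coe] at h

/-- if `v` is algebraic, the numbers `v - z i` are algebraically independent -/
theorem AI_diff {ι : Type} {z : ι → E} (hz : AlgebraicIndependent F z) {v : ι → E} (hv : ∀ i, IsAlgebraic F (v i)) :
    AlgebraicIndependent F (fun i => v i - z i) := by
  classical
  refine algebraicIndependent_of_finite_type fun t ht => ?_
  have := ht.fintype
  refine indep_of_span (hz.comp (fun i : t => i.1) Subtype.val_injective) (fun i => ?_) le_rfl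
  show z i.1 ∈ _
  have e : z i.1 = v i.1 - (v i.1 - z i.1) := by ring
  rw [e]
  exact (clF F _).sub_mem (clF_mono (empty_subset _) (mem_empty (hv i.1))) (subset_clF _ ⟨i, rfl⟩)


/-- package MC -/
theorem s_mc : Pool.Agent.P8H90.AP.S_MC := by
  intro E _ F ι z hz
  refine ⟨fun κ y s t hst h => ?_, fun v r y hv => ⟨?_, fun S => ?_, fun S => ?_, fun hv' => ?_⟩⟩
  · have hx : AlgebraicIndependent F (fun i : t => z i.1) := hz.comp _ Subtype.val_injective
    refine indep_of_span hx (fun i => ?_) (by rw [Fintype.card_coe, Fintype.card_coe]; exact hst)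
    have e : range (fun k : s => y k.1) = y '' (s : Set κ) := by
      rw [show (fun k : s => y k.1) = y ∘ (Subtype.val : s → κ) from rfl, range_comp]
      congr 1
      ext a
      simp
    rw [e, mem_clF]
    exact h i.1 i.2
  · by_contra hcon
    rw [not_le] at hcon
    have h1 : ((r + 1 : ℕ) : ℕ∞) ≤
        {i : Fin r ⊕ ι | IsAlgebraic F (Sum.elim y (fun i => v i - z i) i)}.encard := by
      have := Order.add_one_le_of_lt hcon
      exact_mod_cast this
    obtain ⟨t, htI, htc⟩ := exists_subset_encard_eq h1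
    have hfin : t.Finite := by
      rw [← encard_lt_top_iff, htc]
      exact ENat.natCast_lt_top _
    have h2 := countK hz v y (fun i => mem_clF.2 (hv i)) hfin.toFinset
      (fun i hi => mem_empty (htI (hfin.mem_toFinset.1 hi)))
    have h3 : (hfin.toFinset.card : ℕ∞) = ((r + 1 : ℕ) : ℕ∞) := by
      rw [← htc, hfin.encard_eq_coe_toFinset_card]
    have h4 : hfin.toFinset.card = r + 1 := by exact_mod_cast h3
    omega
  · exact (trdegK hz v y (fun i => mem_clF.2 (hv i)) S).1
  · exact (trdegK hz v y (fun i => mem_clF.2 (hv i)) S).2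
  · exact AI_diff hz hv'

end Pool.Agent.P8H57.AP.MC
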