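import Pool.Agent.P8H90.AP.Poly

/-!
# Project AP, package TWA: lemmas on polynomials
-/

set_option autoImplicit false

open Polynomial

namespace Pool.Agent.P8H57.AP

open Pool.Agent.P8H90.AP

variable {K : Type} [Field K] [CharZero K]

lemma coeff_X_der (r : K[X]) (n : ℕ) : (X * derivative r).coeff n = (n : K) * r.coeff n := by
  rcases n with _ | n
  · simp
  · rw [coeff_X_mul, coeff_derivative]
    push_cast
    ring

lemma natDegree_X_der (r : K[X]) : (X * derivative r).natDegree ≤ r.natDegree := by
  rw [natDegree_le_iff_coeff_eq_zero]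
  intro n hn
  rw [coeff_X_der, coeff_eq_zero_of_natDegree_lt hn, mul_zero]

/-- the exponents in `X r1' / r1 - X r0' / r0 = dlt - mu X` -/
lemma poly1a {r0 r1 : K[X]} {μ δ : K} (h0 : r0 ≠ 0) (h1 : r1 ≠ 0)
    (h : r0 * (X * derivative r1) - r1 * (X * derivative r0) + (C μ * X - C δ) * r0 * r1 = 0) :
    μ = 0 ∧ δ = (r1.natDegree : K) - r0.natDegree := by
  have hl0 : r0.leadingCoeff ≠ 0 := leadingCoeff_ne_zero.2 h0
  have hl1 : r1.leadingCoeff ≠ 0 := leadingCoeff_ne_zero.2 h1
  have key : ∀ p q : K[X], (p * (X * derivative q)).coeff (p.natDegree + q.natDegree) =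
      (q.natDegree : K) * (p.leadingCoeff * q.leadingCoeff) := by
    intro p q
    rw [coeff_mul_add_eq_of_natDegree_le le_rfl (natDegree_X_der q), coeff_X_der, leadingCoeff,
      leadingCoeff]
    ring
  have key2 : ∀ p q : K[X], (p * (X * derivative q)).coeff (p.natDegree + q.natDegree + 1) = 0 := by
    intro p q
    apply coeff_eq_zero_of_natDegree_lt
    have h5 := natDegree_mul_le (p := p) (q := X * derivative q)
    have h6 := natDegree_X_der q
    omega
  have e : (C μ * X - C δ) * r0 * r1 = C μ * (X * (r0 * r1)) - C δ * (r0 * r1) := by ring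
  rw [e] at h
  have hμ : μ = 0 := by
    have h3 := congrArg (fun p => p.coeff (r0.natDegree + r1.natDegree + 1)) h
    simp only [coeff_add, coeff_sub, coeff_C_mul, coeff_zero, coeff_X_mul] at h3
    have h7 : (r0 * r1).coeff (r0.natDegree + r1.natDegree + 1) = 0 := by
      apply coeff_eq_zero_of_natDegree_lt
      have h5 := natDegree_mul_le (p := r0) (q := r1)
      omega
    have h8 := key2 r1 r0
    rw [add_comm r1.natDegree] at h8
    rw [key2 r0 r1, h8, h7, coeff_mul_degree_add_degree] at h3
    have h9 : μ * (r0.leadingCoeff * r1.leadingCoeff) = 0 := by linear_combination h3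
    rcases mul_eq_zero.1 h9 with h6 | h6
    · exact h6
    · exact absurd h6 (mul_ne_zero hl0 hl1)
  refine ⟨hμ, ?_⟩
  have h3 := congrArg (fun p => p.coeff (r0.natDegree + r1.natDegree)) h
  simp only [hμ, C_0, zero_mul, zero_sub, coeff_add, coeff_sub, coeff_neg, coeff_C_mul, coeff_zero] at h3
  have h8 := key r1 r0
  rw [add_comm r1.natDegree] at h8
  rw [key r0 r1, h8, coeff_mul_degree_add_degree] at h3
  have h9 : ((r1.natDegree : K) - r0.natDegree - δ) * (r0.leadingCoeff * r1.leadingCoeff) = 0 := by
    linear_combination h3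
  rcases mul_eq_zero.1 h9 with h6 | h6
  · linear_combination -h6
  · exact absurd h6 (mul_ne_zero hl0 hl1)

/-- the form of `r1` if the exponent is a natural number -/
lemma poly1b {r0 r1 : K[X]} {m : ℕ} (h0 : r0 ≠ 0)
    (h : r0 * (X * derivative r1) - r1 * (X * derivative r0) - C (m : K) * r0 * r1 = 0) :
    ∃ κ : K, r1 = C κ * X ^ m * r0 := by
  have hw : X ^ m * r0 ≠ 0 := mul_ne_zero (pow_ne_zero _ X_ne_zero) h0
  have h2 : X ^ m * r0 * derivative r1 - r1 * derivative (X ^ m * r0) = 0 := by
    apply mul_left_cancel₀ (X_ne_zero (R := K))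
    have e : X * derivative (X ^ m * r0) = C (m : K) * X ^ m * r0 + X ^ m * (X * derivative r0) := by
      rw [derivative_mul, derivative_X_pow]
      rcases m with _ | m
      · simp
      · rw [Nat.add_sub_cancel, pow_succ]
        push_cast
        ring
    rw [mul_zero]
    have e2 : X * (X ^ m * r0 * derivative r1 - r1 * derivative (X ^ m * r0)) =
        X ^ m * r0 * (X * derivative r1) - r1 * (X * derivative (X ^ m * r0)) := by ring
    rw [e2, e]
    linear_combination X ^ m * h
  obtain ⟨κ, hκ⟩ := prop_of_wr hw h2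
  exact ⟨κ, by rw [hκ]; ring⟩

/-- no rational function `r / w` satisfies `X f' + (μ X + b) f = - κ`, `κ ≠ 0`: the coprime case -/
lemma poly2c {μ κ : K} {b : ℚ} (hb1 : b < 1) (hμ : μ ≠ 0) {w r : K[X]} (hw : w ≠ 0)
    (hc : IsCoprime w r)
    (h : w * (X * derivative r) - r * (X * derivative w) + (C μ * X + C (b : K)) * w * r +
      C κ * w ^ 2 = 0) : κ = 0 := by
  have hd : w ∣ X * derivative w := by
    have h1 : w ∣ (X * derivative w) * r := by
      refine ⟨X * derivative r + (C μ * X + C (b : K)) * r + C κ * w, ?_⟩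
      linear_combination -h
    exact hc.dvd_of_dvd_mul_right h1
  obtain ⟨u, hu⟩ := hd
  -- the quotient is the degree
  have hu2 : u = C (w.natDegree : K) := by
    have h1 := natDegree_X_der w
    by_cases hu0 : u = 0
    · rw [hu0, mul_zero] at hu
      have h2 := congrArg (fun p => p.coeff w.natDegree) hu
      simp only [coeff_X_der, coeff_zero] at h2
      rcases mul_eq_zero.1 h2 with h3 | h3
      · rw [hu0, h3, C_0]
      · exact absurd (leadingCoeff_eq_zero.1 h3) hw
    · have h2 : u.natDegree = 0 := by
        rw [hu, natDegree_mul hw hu0] at h1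
        omega
      rw [eq_C_of_natDegree_eq_zero h2] at hu ⊢
      have h3 := congrArg (fun p => p.coeff w.natDegree) hu
      simp only [coeff_X_der, coeff_mul_C] at h3
      have h4 : w.coeff w.natDegree ≠ 0 := leadingCoeff_ne_zero.2 hw
      congr 1
      apply mul_left_cancel₀ h4
      linear_combination -h3
  rw [hu2] at hu
  have h2 : X * derivative r + (C μ * X + C (b : K) - C (w.natDegree : K)) * r + C κ * w = 0 := by
    apply mul_left_cancel₀ hw
    rw [hu] at h
    rw [mul_zero]
    linear_combination h
  by_cases hj : w.natDegree = 0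
  · -- `w` is constant
    rw [hj, Nat.cast_zero, C_0, sub_zero] at h2
    have hr : r = 0 := by
      by_contra hr
      have h3 := congrArg (fun p => p.coeff (r.natDegree + 1)) h2
      have e : (C μ * X + C (b : K)) * r = C μ * (X * r) + C (b : K) * r := by ring
      simp only [e, coeff_add, coeff_C_mul, coeff_zero, coeff_X_der] at h3
      rw [coeff_X_mul, coeff_eq_zero_of_natDegree_lt (show r.natDegree < r.natDegree + 1 by omega),
        coeff_eq_zero_of_natDegree_lt (show w.natDegree < r.natDegree + 1 by omega)] at h3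
      have h4 : μ * r.leadingCoeff = 0 := by
        rw [leadingCoeff]
        linear_combination h3
      rcases mul_eq_zero.1 h4 with h5 | h5
      · exact hμ h5
      · exact hr (leadingCoeff_eq_zero.1 h5)
    rw [hr] at h2
    simp only [derivative_zero, mul_zero, add_zero, zero_add] at h2
    rcases mul_eq_zero.1 h2 with h3 | h3
    · exact C_eq_zero.1 h3
    · exact absurd h3 hw
  · exfalso
    have hw0 : eval 0 w = 0 := by
      have h3 := congrArg (eval 0) hu
      simp only [eval_mul, eval_X, zero_mul, eval_C] at h3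
      rcases mul_eq_zero.1 h3.symm with h4 | h4
      · exact h4
      · exact absurd (Nat.cast_eq_zero.1 h4) hj
    have hr0 : eval 0 r = 0 := by
      have h3 := congrArg (eval 0) h2
      simp only [eval_add, eval_sub, eval_mul, eval_X, eval_C, zero_mul, mul_zero, hw0, add_zero,
        zero_add, eval_zero] at h3
      rcases mul_eq_zero.1 h3 with h4 | h4
      · exfalso
        have h5 : (b : K) = ((w.natDegree : ℚ) : K) := by
          push_cast
          linear_combination h4
        have h6 : b = (w.natDegree : ℚ) := Rat.cast_injective h5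
        have h7 : (1 : ℚ) ≤ (w.natDegree : ℚ) := by
          exact_mod_cast Nat.one_le_iff_ne_zero.2 hj
        linarith
      · exact h4
    obtain ⟨s, t, hst⟩ := hc
    have h3 := congrArg (eval 0) hst
    rw [eval_add, eval_mul, eval_mul, hw0, hr0, mul_zero, mul_zero, add_zero, eval_one] at h3
    exact zero_ne_one h3

/-- no rational function `f = r / w` satisfies `X f' + (μ X + b) f = - κ`, `κ ≠ 0` -/
lemma poly2a {μ κ : K} {b : ℚ} (hb0 : 0 ≤ b) (hb1 : b < 1) (hμ : μ ≠ 0 ∨ b = 0) {w r : K[X]} (hw : w ≠ 0)
    (h : w * (X * derivative r) - r * (X * derivative w) + (C μ * X + C (b : K)) * w * r +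
      C κ * w ^ 2 = 0) : κ = 0 := by
  rcases eq_or_lt_of_le hb0 with hb | hb
  · refine poly2 (μ := μ) _ w r rfl hw ?_
    rw [← hb, Rat.cast_zero, C_0, add_zero] at h
    exact h
  · have hμ' : μ ≠ 0 := by
      rcases hμ with h1 | h1
      · exact h1
      · exact absurd h1 hb.ne'
    classical
    have hg : EuclideanDomain.gcd w r ≠ 0 := fun h1 => hw (EuclideanDomain.gcd_eq_zero_iff.1 h1).1
    obtain ⟨w1, hw1⟩ := EuclideanDomain.gcd_dvd_left w r
    obtain ⟨r1, hr1⟩ := EuclideanDomain.gcd_dvd_right w r
    have hcop : IsCoprime w1 r1 := by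
      refine ⟨EuclideanDomain.gcdA w r, EuclideanDomain.gcdB w r, ?_⟩
      apply mul_left_cancel₀ hg
      have h1 := EuclideanDomain.gcd_eq_gcd_ab w r
      rw [mul_one]
      conv_rhs => rw [h1]
      generalize EuclideanDomain.gcd w r = g at hw1 hr1 h1 ⊢
      generalize EuclideanDomain.gcdA w r = A
      generalize EuclideanDomain.gcdB w r = B
      rw [hw1, hr1]
      ring
    generalize EuclideanDomain.gcd w r = g at hw1 hr1 hg
    have hw10 : w1 ≠ 0 := by
      rintro rfl
      rw [mul_zero] at hw1
      exact hw hw1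
    refine poly2c hb1 hμ' hw10 hcop ?_
    apply mul_left_cancel₀ (pow_ne_zero 2 hg)
    rw [mul_zero, ← h, hw1, hr1, derivative_mul, derivative_mul]
    ring

end Pool.Agent.P8H57.AP
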