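import Pool.Agent.P8H90.AP.MonA

/-!
# Project AP, package TWA: the formal derivative (adapted from Tower.lean of helper90)
-/

set_option autoImplicit false

open Polynomial

namespace Pool.Agent.P8H57.AP

open Pool.Agent.P8H90.AP

section

variable {K : Type} [Field K] (T : Finset (ℚ × K)) (L : ℕ)

lemma smul_coe (r : K[X]) (f : PowerSeries K) : r • f = (r : PowerSeries K) * f := by
  rw [Algebra.smul_def, PowerSeries.algebraMap_apply']
  simp

lemma coe_nat (n : ℕ) : (((n : K[X]) : K[X]) : PowerSeries K) = (n : PowerSeries K) :=
  map_natCast (Polynomial.coeToPowerSeries.ringHom (R := K)) n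

/-- the index set -/
abbrev II : Type := K × ((Fin L × T) →₀ ℕ)

open scoped Classical in
/-- the part of the derivative of a term coming from the function `v` -/
noncomputable def dV (v : Fin L × T) (p : II T L) (r : K[X]) : II T L →₀ K[X] :=
  if p.2 v = 0 then 0 else
  if v.1.1 = 0 then Finsupp.single (p.1, p.2 - Finsupp.single v 1) ((p.2 v : K[X]) * r) -
      Finsupp.single (p.1 - v.2.1.2, p.2 - Finsupp.single v 1) ((p.2 v : K[X]) * r)
  else Finsupp.single (p.1, p.2 - Finsupp.single v 1 + Finsupp.single (prA T L v) 1) ((p.2 v : K[X]) * r)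

/-- the derivative of a term -/
noncomputable def dS (p : II T L) (r : K[X]) : II T L →₀ K[X] :=
  Finsupp.single p (X * derivative r + (C p.1 * X - C (Aw T L p.2 : K)) * r) + ∑ v, dV T L v p r

lemma dV_zero (v : Fin L × T) (p : II T L) : dV T L v p 0 = 0 := by
  unfold dV
  split_ifs <;> simp

lemma dV_add (v : Fin L × T) (p : II T L) (r r' : K[X]) :
    dV T L v p (r + r') = dV T L v p r + dV T L v p r' := by
  unfold dV
  split_ifs
  · simp
  · rw [mul_add, Finsupp.single_add, Finsupp.single_add]; abel
  · rw [mul_add, Finsupp.single_add]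

lemma dS_zero (p : II T L) : dS T L p 0 = 0 := by
  unfold dS
  simp [dV_zero]

lemma dS_add (p : II T L) (r r' : K[X]) : dS T L p (r + r') = dS T L p r + dS T L p r' := by
  unfold dS
  simp only [dV_add, Finset.sum_add_distrib]
  have : X * derivative (r + r') + (C p.1 * X - C (Aw T L p.2 : K)) * (r + r') =
      (X * derivative r + (C p.1 * X - C (Aw T L p.2 : K)) * r) +
        (X * derivative r' + (C p.1 * X - C (Aw T L p.2 : K)) * r') := by
    rw [derivative_add]; ring
  rw [this, Finsupp.single_add]
  abel

/-- the formal derivative -/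
noncomputable def DD (c : II T L →₀ K[X]) : II T L →₀ K[X] := c.sum (dS T L)

lemma DD_zero : DD T L 0 = 0 := Finsupp.sum_zero_index

lemma DD_add (c c' : II T L →₀ K[X]) : DD T L (c + c') = DD T L c + DD T L c' := by
  classical
  exact Finsupp.sum_add_index' (dS_zero T L) (dS_add T L)

lemma DD_single (p : II T L) (r : K[X]) : DD T L (Finsupp.single p r) = dS T L p r :=
  Finsupp.sum_single_index (dS_zero T L p)

open scoped Classical in
/-- the coefficient formula, the part of `v` -/
noncomputable def FV (v : Fin L × T) (c : II T L →₀ K[X]) (q : II T L) : K[X] :=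
  if v.1.1 = 0 then ((q.2 v + 1 : ℕ) : K[X]) * (c (q.1, q.2 + Finsupp.single v 1) -
      c (q.1 + v.2.1.2, q.2 + Finsupp.single v 1))
  else if q.2 (prA T L v) = 0 then 0 else
    ((q.2 v + 1 : ℕ) : K[X]) * c (q.1, q.2 + Finsupp.single v 1 - Finsupp.single (prA T L v) 1)

lemma FV_zero' (v : Fin L × T) (q : II T L) : FV T L v 0 q = 0 := by
  unfold FV
  split_ifs <;> simp

lemma FV_add (v : Fin L × T) (c c' : II T L →₀ K[X]) (q : II T L) :
    FV T L v (c + c') q = FV T L v c q + FV T L v c' q := by
  unfold FV
  split_ifs
  · simp only [Finsupp.add_apply]; ring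
  · simp
  · simp only [Finsupp.add_apply]; ring

lemma pr_ne {v : Fin L × T} (h : v.1.1 ≠ 0) : prA T L v ≠ v := by
  intro h1
  have h2 := congrArg (fun w : Fin L × T => w.1.1) h1
  simp only [prA] at h2
  omega

lemma pr_inj {u v : Fin L × T} (hu : u.1.1 ≠ 0) (hv : v.1.1 ≠ 0) (h : prA T L u = prA T L v) : u = v := by
  have h1 := congrArg (fun w : Fin L × T => w.1.1) h
  have h2 := congrArg (fun w : Fin L × T => w.2) h
  simp only [prA] at h1 h2
  refine Prod.ext (Fin.ext ?_) h2
  omega

lemma dV_apply (v : Fin L × T) (p : II T L) (r : K[X]) (q : II T L) :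
    dV T L v p r q = FV T L v (Finsupp.single p r) q := by
  classical
  obtain ⟨q1, q2⟩ := q
  obtain ⟨p1, p2⟩ := p
  unfold dV FV
  simp only
  by_cases h0 : v.1.1 = 0
  · rw [if_pos h0, if_pos h0]
    by_cases h : p2 = q2 + Finsupp.single v 1
    · have h1 : p2 v = q2 v + 1 := by rw [h]; simp
      have h2 : p2 - Finsupp.single v 1 = q2 := by
        rw [h]; simp
      rw [if_neg (by omega), h2, h1, Finsupp.sub_apply, Finsupp.single_apply, Finsupp.single_apply,
        Finsupp.single_apply, Finsupp.single_apply]
      simp only [Prod.mk.injEq, h, and_true]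
      have e : (p1 - v.2.1.2 = q1) ↔ (p1 = q1 + v.2.1.2) := sub_eq_iff_eq_add
      simp only [e]
      split_ifs <;> simp
    · have e1 : (Finsupp.single ((p1, p2) : II T L) r) (q1, q2 + Finsupp.single v 1) = 0 := by
        rw [Finsupp.single_apply, if_neg]
        intro h1
        exact h (congrArg Prod.snd h1)
      have e2 : (Finsupp.single ((p1, p2) : II T L) r) (q1 + v.2.1.2, q2 + Finsupp.single v 1) = 0 := by
        rw [Finsupp.single_apply, if_neg]
        intro h1
        exact h (congrArg Prod.snd h1)
      rw [e1, e2, sub_zero, mul_zero]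
      split_ifs with h1
      · rfl
      · have h2 : p2 - Finsupp.single v 1 ≠ q2 := by
          intro h2
          apply h
          rw [← h2]
          ext w
          simp only [Finsupp.add_apply, Finsupp.tsub_apply, Finsupp.single_apply]
          split_ifs with hw
          · subst hw; omega
          · omega
        rw [Finsupp.sub_apply, Finsupp.single_apply, Finsupp.single_apply, if_neg, if_neg, sub_zero]
        · intro h3; exact h2 (congrArg Prod.snd h3)
        · intro h3; exact h2 (congrArg Prod.snd h3)
  · rw [if_neg h0, if_neg h0]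
    have hne := pr_ne T L h0
    by_cases h : p2 + Finsupp.single (prA T L v) 1 = q2 + Finsupp.single v 1
    · have h1 : p2 v = q2 v + 1 := by
        have := DFunLike.congr_fun h v
        simp only [Finsupp.add_apply, Finsupp.single_eq_same, Finsupp.single_apply, if_neg hne] at this
        omega
      have h2 : q2 (prA T L v) = p2 (prA T L v) + 1 := by
        have := DFunLike.congr_fun h (prA T L v)
        simp only [Finsupp.add_apply, Finsupp.single_eq_same, Finsupp.single_apply, if_neg hne.symm] at this
        omega
      have h3 : p2 - Finsupp.single v 1 + Finsupp.single (prA T L v) 1 = q2 := by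
        ext w
        have := DFunLike.congr_fun h w
        simp only [Finsupp.add_apply, Finsupp.tsub_apply, Finsupp.single_apply] at this ⊢
        by_cases hw : v = w
        · subst hw; rw [if_pos rfl] at this ⊢; omega
        · rw [if_neg hw] at this ⊢; omega
      have h4 : q2 + Finsupp.single v 1 - Finsupp.single (prA T L v) 1 = p2 := by
        rw [← h, add_tsub_cancel_right]
      rw [if_neg (by omega), if_neg (by omega), h3, h4, h1, Finsupp.single_apply, Finsupp.single_apply]
      simp only [Prod.mk.injEq, and_true]
      split_ifs <;> simp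
    · have e1 : (if q2 (prA T L v) = 0 then (0 : K[X]) else ((q2 v + 1 : ℕ) : K[X]) *
          (Finsupp.single ((p1, p2) : II T L) r) (q1, q2 + Finsupp.single v 1 - Finsupp.single (prA T L v) 1)) = 0 := by
        split_ifs with h1
        · rfl
        · rw [Finsupp.single_apply, if_neg, mul_zero]
          intro h2
          apply h
          have h5 : p2 = q2 + Finsupp.single v 1 - Finsupp.single (prA T L v) 1 := congrArg Prod.snd h2
          rw [h5]
          ext w
          simp only [Finsupp.add_apply, Finsupp.tsub_apply, Finsupp.single_apply]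
          by_cases hw : prA T L v = w
          · subst hw; rw [if_pos rfl]; omega
          · rw [if_neg hw]; omega
      rw [e1]
      split_ifs with h1
      · rfl
      · rw [Finsupp.single_apply, if_neg]
        intro h2
        apply h
        have h3 := congrArg Prod.snd h2
        simp only at h3
        rw [← h3]
        ext w
        simp only [Finsupp.add_apply, Finsupp.tsub_apply, Finsupp.single_apply]
        by_cases hw : v = w
        · subst hw; rw [if_pos rfl]; omega
        · rw [if_neg hw]; omega

/-- the coefficient formula -/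
lemma DD_apply (c : II T L →₀ K[X]) (q : II T L) :
    DD T L c q = X * derivative (c q) + (C q.1 * X - C (Aw T L q.2 : K)) * c q + ∑ v, FV T L v c q := by
  classical
  induction c using Finsupp.induction_linear with
  | zero => rw [DD_zero]; simp [FV_zero']
  | add c c' h h' =>
    rw [DD_add, Finsupp.add_apply, h, h', Finsupp.add_apply, derivative_add]
    simp only [FV_add, Finset.sum_add_distrib]
    ring
  | single p r =>
    rw [DD_single, dS, Finsupp.add_apply, Finsupp.coe_finsetSum, Finset.sum_apply]
    congr 1
    · rw [Finsupp.single_apply, Finsupp.single_apply]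
      split_ifs with h
      · rw [h]
      · simp
    · exact Finset.sum_congr rfl fun v _ => dV_apply T L v p r q

/-- the evaluation -/
noncomputable abbrev eval' : (II T L →₀ K[X]) →ₗ[K[X]] PowerSeries K := Finsupp.linearCombination K[X] (monA T L)

variable [CharZero K]

lemma eval_dV (v : Fin L × T) (p : II T L) (r : K[X]) : eval' T L (dV T L v p r) =
    (r : PowerSeries K) * ((p.2 v : PowerSeries K) * (ex p.1 *
      ((if v.1.1 = 0 then 1 - ex (-v.2.1.2) else yA T L (prA T L v)) *
        pA T L (p.2 - Finsupp.single v 1)))) := by
  obtain ⟨p1, p2⟩ := p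
  unfold dV
  simp only
  split_ifs with h1 h2
  · rw [h1]; simp
  · rw [h1]; simp
  · rw [map_sub, eval', Finsupp.linearCombination_single, Finsupp.linearCombination_single, smul_coe, smul_coe,
      monA_eq, monA_eq]
    have : ex (p1 - v.2.1.2) = ex p1 * ex (-v.2.1.2) := by rw [← ex_add]; ring_nf
    simp only [this]
    rw [Polynomial.coe_mul, coe_nat]
    ring
  · rw [eval', Finsupp.linearCombination_single, smul_coe, monA_eq, pA_add, pA_single,
      Polynomial.coe_mul, coe_nat]
    ring

lemma eval_DD (hT : ∀ t ∈ T, 0 ≤ t.1) (c : II T L →₀ K[X]) : eval' T L (DD T L c) = th (eval' T L c) := by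
  induction c using Finsupp.induction_linear with
  | zero => rw [DD_zero, map_zero, th_zero]
  | add c c' h h' => rw [DD_add, map_add, map_add, th_add, h, h']
  | single p r =>
    rw [DD_single, dS, map_add, map_sum, eval', Finsupp.linearCombination_single,
      Finsupp.linearCombination_single, smul_coe, smul_coe, th_mul, th_coe, th_monA T L hT, mul_add,
      Finset.mul_sum]
    have h1 : ∀ v, Finsupp.linearCombination K[X] (monA T L) (dV T L v p r) =
      (r : PowerSeries K) * ((p.2 v : PowerSeries K) * (ex p.1 *
      ((if v.1.1 = 0 then 1 - ex (-v.2.1.2) else yA T L (prA T L v)) *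
        pA T L (p.2 - Finsupp.single v 1)))) :=
        fun v => eval_dV T L v p r
    rw [Finset.sum_congr rfl fun v _ => h1 v]
    simp only [Polynomial.coe_mul, Polynomial.coe_add, Polynomial.coe_sub, Polynomial.coe_X, Polynomial.coe_C]
    ring

end

end Pool.Agent.P8H57.AP
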