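import Pool.Agent.P8H57.AP.TowerA
import Pool.Agent.P8H57.AP.PolyA

/-!
# Project AP, package TWA: the monomials are linearly independent over `K[X]` (adapted from TowerB.lean
of helper90)
-/

set_option autoImplicit false

open Polynomial

namespace Pool.Agent.P8H57.AP

open Pool.Agent.P8H90.AP

section

variable {K : Type} [Field K] (T : Finset (ℚ × K)) (L : ℕ)

/-- the weight -/
def wt (s : (Fin L × T) →₀ ℕ) : ℕ := ∑ v, (v.1.1 + 1) * s v

lemma wt_add (s t : (Fin L × T) →₀ ℕ) : wt T L (s + t) = wt T L s + wt T L t := by
  unfold wt
  rw [← Finset.sum_add_distrib]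
  exact Finset.sum_congr rfl fun v _ => by rw [Finsupp.add_apply]; ring

lemma wt_single (v : Fin L × T) : wt T L (Finsupp.single v 1) = v.1.1 + 1 := by
  classical
  unfold wt
  rw [Finset.sum_eq_single v]
  · rw [Finsupp.single_eq_same, mul_one]
  · intro w _ hw
    rw [Finsupp.single_apply, if_neg hw.symm, mul_zero]
  · intro h; exact absurd (Finset.mem_univ v) h

lemma eq_zero_of_wt {s : (Fin L × T) →₀ ℕ} (h : wt T L s = 0) : s = 0 := by
  ext v
  unfold wt at h
  rw [Finset.sum_eq_zero_iff] at h
  have := h v (Finset.mem_univ v)
  rcases Nat.mul_eq_zero.1 this with h1 | h1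
  · omega
  · simpa using h1

lemma shift_eq {v : Fin L × T} {s : (Fin L × T) →₀ ℕ} (hs : s (prA T L v) ≠ 0) :
    s + Finsupp.single v 1 - Finsupp.single (prA T L v) 1 + Finsupp.single (prA T L v) 1 = s + Finsupp.single v 1 := by
  classical
  ext w
  simp only [Finsupp.add_apply, Finsupp.tsub_apply, Finsupp.single_apply]
  by_cases hw : prA T L v = w
  · subst hw; rw [if_pos rfl]; omega
  · rw [if_neg hw]; omega

lemma wt_shift {v : Fin L × T} (h : v.1.1 ≠ 0) {s : (Fin L × T) →₀ ℕ} (hs : s (prA T L v) ≠ 0) :
    wt T L (s + Finsupp.single v 1 - Finsupp.single (prA T L v) 1) = wt T L s + 1 := by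
  have h1 := congrArg (wt T L) (shift_eq T L hs)
  rw [wt_add, wt_add, wt_single, wt_single] at h1
  have h2 : (prA T L v).1.1 = v.1.1 - 1 := rfl
  rw [h2] at h1
  omega

lemma FV_top {n : ℕ} {c : II T L →₀ K[X]} (hc : ∀ q, c q ≠ 0 → wt T L q.2 < n + 1) (v : Fin L × T) (q : II T L)
    (hq : n ≤ wt T L q.2) : FV T L v c q = 0 := by
  have hz : ∀ q', n + 1 ≤ wt T L q'.2 → c q' = 0 := fun q' h => by
    by_contra h1
    exact absurd (hc q' h1) (not_lt.2 h)
  unfold FV
  split_ifs with h1 h2
  · rw [hz, hz, sub_zero, mul_zero]
    · rw [wt_add, wt_single]; omega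
    · rw [wt_add, wt_single]; omega
  · rfl
  · rw [hz, mul_zero]
    rw [wt_shift T L h1 h2]; omega

variable [CharZero K]

lemma Aw_add (s t : (Fin L × T) →₀ ℕ) : Aw T L (s + t) = Aw T L s + Aw T L t := by
  unfold Aw
  rw [← Finset.sum_add_distrib]
  exact Finset.sum_congr rfl fun v _ => by rw [Finsupp.add_apply]; push_cast; ring

lemma Aw_single (v : Fin L × T) : Aw T L (Finsupp.single v 1) = v.2.1.1 := by
  classical
  unfold Aw
  rw [Finset.sum_eq_single v]
  · rw [Finsupp.single_eq_same]; simp
  · intro w _ hw
    rw [Finsupp.single_apply, if_neg hw.symm]; simp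
  · intro h; exact absurd (Finset.mem_univ v) h

lemma Aw_shift {v : Fin L × T} {s : (Fin L × T) →₀ ℕ} (hs : s (prA T L v) ≠ 0) :
    Aw T L (s + Finsupp.single v 1 - Finsupp.single (prA T L v) 1) = Aw T L s := by
  have h1 := congrArg (Aw T L) (shift_eq T L hs)
  rw [Aw_add, Aw_add, Aw_single, Aw_single] at h1
  have h2 : (prA T L v).2.1.1 = v.2.1.1 := rfl
  rw [h2] at h1
  linarith

theorem tower (hT : ∀ t ∈ T, 0 ≤ t.1 ∧ t.1 < 1 ∧ t.2 ≠ 0) : LinearIndependent K[X] (monA T L) := by
  classical
  have hT0 : ∀ t ∈ T, 0 ≤ t.1 := fun t ht => (hT t ht).1
  rw [linearIndependent_iff]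
  suffices hmain : ∀ (n : ℕ) (c : II T L →₀ K[X]), (∀ q, c q ≠ 0 → wt T L q.2 < n) → eval' T L c = 0 → c = 0 by
    intro c hc
    refine hmain (c.support.sup (fun q => wt T L q.2) + 1) c (fun q hq => ?_) hc
    exact Nat.lt_succ_of_le (Finset.le_sup (f := fun q : II T L => wt T L q.2) (Finsupp.mem_support_iff.2 hq))
  intro n
  induction n with
  | zero =>
    intro c hc _
    ext1 q
    by_contra h
    exact absurd (hc q h) (Nat.not_lt_zero _)
  | succ n ih =>
    have key : ∀ (k : ℕ) (c : II T L →₀ K[X]), (c.support.filter (fun q => wt T L q.2 = n)).card = k →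
        (∀ q, c q ≠ 0 → wt T L q.2 < n + 1) → eval' T L c = 0 → ∀ q, wt T L q.2 = n → c q = 0 := by
      intro k
      induction k using Nat.strong_induction_on with
      | _ k ihk =>
        intro c hk hc he
        by_contra hcon
        push Not at hcon
        obtain ⟨p0, hp0, hne, hmin0⟩ : ∃ p0 : II T L, wt T L p0.2 = n ∧ c p0 ≠ 0 ∧
            ∀ q, wt T L q.2 = n → c q ≠ 0 → Aw T L p0.2 ≤ Aw T L q.2 := by
          obtain ⟨p1, hp1, hne1⟩ := hcon
          obtain ⟨p0, hp0, hmin⟩ := Finset.exists_min_image (c.support.filter (fun q => wt T L q.2 = n))
            (fun q => Aw T L q.2) ⟨p1, Finset.mem_filter.2 ⟨Finsupp.mem_support_iff.2 hne1, hp1⟩⟩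
          rw [Finset.mem_filter, Finsupp.mem_support_iff] at hp0
          exact ⟨p0, hp0.2, hp0.1, fun q hq hcq =>
            hmin q (Finset.mem_filter.2 ⟨Finsupp.mem_support_iff.2 hcq, hq⟩)⟩
        obtain ⟨r0, hr0⟩ : ∃ r0, r0 = c p0 := ⟨_, rfl⟩
        have hr00 : r0 ≠ 0 := by rw [hr0]; exact hne
        obtain ⟨A0, hA0⟩ : ∃ A0, A0 = Aw T L p0.2 := ⟨_, rfl⟩
        rw [← hA0] at hmin0
        obtain ⟨c', hc'⟩ : ∃ c' : II T L →₀ K[X],
            c' = r0 • DD T L c - (r0 * (C p0.1 * X - C (A0 : K)) + X * derivative r0) • c :=
          ⟨_, rfl⟩
        have he' : eval' T L c' = 0 := by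
          rw [hc', map_sub, map_smul, map_smul, eval_DD T L hT0, he, th_zero, smul_zero, smul_zero, sub_zero]
        have hc'q : ∀ q, c' q = r0 * (X * derivative (c q) + (C q.1 * X - C (Aw T L q.2 : K)) * c q +
            ∑ v, FV T L v c q) -
            (r0 * (C p0.1 * X - C (A0 : K)) + X * derivative r0) * c q := by
          intro q
          rw [hc', Finsupp.sub_apply, Finsupp.smul_apply, Finsupp.smul_apply, DD_apply, smul_eq_mul, smul_eq_mul]
        have hbig : ∀ q, n < wt T L q.2 → c' q = 0 := by
          intro q hq
          have h1 : c q = 0 := by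
            by_contra h1
            have := hc q h1
            omega
          rw [hc'q, h1, Finset.sum_eq_zero fun v _ => FV_top T L hc v q hq.le]
          simp
        have htop : ∀ q, wt T L q.2 = n → c' q = r0 * (X * derivative (c q)) - c q * (X * derivative r0) +
            (C (q.1 - p0.1) * X - C ((Aw T L q.2 : K) - A0)) * r0 * c q := by
          intro q hq
          rw [hc'q, Finset.sum_eq_zero fun v _ => FV_top T L hc v q hq.ge, C_sub, C_sub]
          ring
        have hp0' : c' p0 = 0 := by
          rw [htop p0 hp0, ← hr0, ← hA0, sub_self, sub_self, sub_self, C_0]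
          ring
        have hall : ∀ q, wt T L q.2 = n → c' q = 0 := by
          refine ihk _ ?_ c' rfl ?_ he'
          · rw [← hk]
            apply Finset.card_lt_card
            rw [Finset.ssubset_iff_of_subset]
            · refine ⟨p0, Finset.mem_filter.2 ⟨Finsupp.mem_support_iff.2 hne, hp0⟩, ?_⟩
              rw [Finset.mem_filter, Finsupp.mem_support_iff]
              rintro ⟨h1, _⟩
              exact h1 hp0'
            · intro q hq
              rw [Finset.mem_filter, Finsupp.mem_support_iff] at hq ⊢
              refine ⟨fun h1 => hq.1 ?_, hq.2⟩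
              rw [htop q hq.2, h1]
              simp
          · intro q hq
            by_contra h1
            exact hq (hbig q (by omega))
        have hW : ∀ q, c' q ≠ 0 → wt T L q.2 < n := by
          intro q hq
          by_contra h1
          rcases lt_or_eq_of_le (not_lt.1 h1) with h2 | h2
          · exact hq (hbig q h2)
          · exact hq (hall q h2.symm)
        have hc'0 : c' = 0 := ih c' hW he'
        -- the coefficients at the top
        have h1 : ∀ q, wt T L q.2 = n → c q ≠ 0 → q.1 = p0.1 ∧
            ∃ (κ : K) (m : ℕ), Aw T L q.2 - A0 = m ∧ c q = C κ * X ^ m * r0 := by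
          intro q hq hcq
          have h2 := htop q hq
          rw [hc'0, Finsupp.zero_apply] at h2
          obtain ⟨h3, h4⟩ := poly1a hr00 hcq h2.symm
          have h5 : Aw T L q.2 - A0 = ((c q).natDegree : ℚ) - r0.natDegree := by
            apply Rat.cast_injective (α := K)
            push_cast
            exact h4
          have h6 : r0.natDegree ≤ (c q).natDegree := by
            have h7 := hmin0 q hq hcq
            have h8 : (0 : ℚ) ≤ ((c q).natDegree : ℚ) - r0.natDegree := by
              rw [← h5]; linarith
            exact_mod_cast (sub_nonneg.1 h8)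
          have h9 : Aw T L q.2 - A0 = (((c q).natDegree - r0.natDegree : ℕ) : ℚ) := by
            rw [h5, Nat.cast_sub h6]
          refine ⟨sub_eq_zero.1 h3, ?_⟩
          obtain ⟨κ, hκ⟩ := poly1b (r1 := c q) (m := (c q).natDegree - r0.natDegree) hr00 (by
            rw [h3, C_0, zero_mul, zero_sub] at h2
            have h10 : ((Aw T L q.2 : K) - A0) = (((c q).natDegree - r0.natDegree : ℕ) : K) := by
              have := congrArg (fun z : ℚ => (z : K)) h9
              push_cast at this
              exact this
            rw [h10] at h2
            linear_combination -h2)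
          exact ⟨κ, _, h9, hκ⟩
        have h1' : ∀ (lam : K) (s : (Fin L × T) →₀ ℕ), wt T L s = n → lam ≠ p0.1 → c (lam, s) = 0 := by
          intro lam s hs hl
          by_contra h2
          exact hl (h1 (lam, s) hs h2).1
        have h2 : ∀ s : (Fin L × T) →₀ ℕ, ∃ κm : K × ℕ, wt T L s = n →
            c (p0.1, s) = C κm.1 * X ^ κm.2 * r0 ∧ (κm.1 ≠ 0 → Aw T L s - A0 = κm.2) := by
          intro s
          by_cases hs : wt T L s = n
          · by_cases h3 : c (p0.1, s) = 0
            · exact ⟨(0, 0), fun _ => ⟨by rw [h3, C_0, zero_mul, zero_mul], fun h => absurd rfl h⟩⟩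
            · obtain ⟨_, κ, m, hm, hκ⟩ := h1 (p0.1, s) hs h3
              exact ⟨(κ, m), fun _ => ⟨hκ, fun _ => hm⟩⟩
          · exact ⟨(0, 0), fun h => absurd h hs⟩
        choose κm hκm using h2
        obtain ⟨κ, hκdef⟩ : ∃ κ : ((Fin L × T) →₀ ℕ) → K, ∀ s, κ s = (κm s).1 := ⟨fun s => (κm s).1, fun _ => rfl⟩
        obtain ⟨mm, hmdef⟩ : ∃ mm : ((Fin L × T) →₀ ℕ) → ℕ, ∀ s, mm s = (κm s).2 := ⟨fun s => (κm s).2, fun _ => rfl⟩
        have hκ : ∀ s, wt T L s = n → c (p0.1, s) = C (κ s) * X ^ (mm s) * r0 := by
          intro s hs
          rw [hκdef, hmdef]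
          exact (hκm s hs).1
        have hmA : ∀ s, wt T L s = n → κ s ≠ 0 → Aw T L s - A0 = mm s := by
          intro s hs h
          rw [hκdef] at h
          rw [hmdef]
          exact (hκm s hs).2 h
        clear hκm hκdef hmdef
        -- no functions of the level zero
        have hi : ∀ v : Fin L × T, v.1.1 = 0 → ∀ s : (Fin L × T) →₀ ℕ, wt T L s + 1 = n →
            κ (s + Finsupp.single v 1) = 0 := by
          intro v hv s hs
          by_contra hκv
          have hv2 : v.2.1.2 ≠ 0 := (hT _ v.2.2).2.2
          have hwv : ∀ u : Fin L × T, u.1.1 = 0 → wt T L (s + Finsupp.single u 1) = n := by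
            intro u hu
            rw [wt_add, wt_single, hu, ← hs]
          have hAv := hmA _ (hwv v hv) hκv
          rw [Aw_add, Aw_single] at hAv
          have hsum : ∑ u, FV T L u c (p0.1 - v.2.1.2, s) =
              C (-((s v + 1 : ℕ) : K) * κ (s + Finsupp.single v 1)) * X ^ (mm (s + Finsupp.single v 1)) * r0 := by
            rw [Finset.sum_eq_single v]
            · unfold FV
              simp only
              rw [if_pos hv, h1' _ _ (hwv v hv) (by
                intro h; apply hv2; linear_combination -h), sub_add_cancel, hκ _ (hwv v hv)]
              rw [C_mul, C_neg, C_eq_natCast]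
              ring
            · intro u _ huv
              unfold FV
              simp only
              split_ifs with h3 h4
              · rw [h1' _ _ (hwv u h3) (by intro h; apply hv2; linear_combination -h)]
                by_cases hau : u.2.1.2 = v.2.1.2
                · have hbu : κ (s + Finsupp.single u 1) = 0 := by
                    by_contra hκu
                    have hAu := hmA _ (hwv u h3) hκu
                    rw [Aw_add, Aw_single] at hAu
                    have hu0 := (hT _ u.2.2).1
                    have hu1 := (hT _ u.2.2).2.1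
                    have hv0 := (hT _ v.2.2).1
                    have hv1 := (hT _ v.2.2).2.1
                    have hz : ((mm (s + Finsupp.single u 1) : ℤ) : ℚ) - ((mm (s + Finsupp.single v 1) : ℤ) : ℚ) =
                        u.2.1.1 - v.2.1.1 := by
                      push_cast
                      rw [← hAu, ← hAv]
                      ring
                    have hz1 : ((mm (s + Finsupp.single u 1) : ℤ) - (mm (s + Finsupp.single v 1) : ℤ)) < 1 := by
                      have : (((mm (s + Finsupp.single u 1) : ℤ) - (mm (s + Finsupp.single v 1) : ℤ) : ℤ) : ℚ) < 1 := by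
                        rw [Int.cast_sub, hz]; linarith
                      exact_mod_cast this
                    have hz2 : -1 < ((mm (s + Finsupp.single u 1) : ℤ) - (mm (s + Finsupp.single v 1) : ℤ)) := by
                      have : (-1 : ℚ) < (((mm (s + Finsupp.single u 1) : ℤ) - (mm (s + Finsupp.single v 1) : ℤ) : ℤ) : ℚ) := by
                        rw [Int.cast_sub, hz]; linarith
                      exact_mod_cast this
                    have hz3 : ((mm (s + Finsupp.single u 1) : ℤ)) = (mm (s + Finsupp.single v 1) : ℤ) := by omega
                    rw [hz3, sub_self] at hz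
                    apply huv
                    refine Prod.ext (Fin.ext (by omega)) (Subtype.ext (Prod.ext ?_ hau))
                    linarith
                  rw [hau, sub_add_cancel, hκ _ (hwv u h3), hbu]
                  simp
                · rw [h1' _ _ (hwv u h3) (by
                    intro h
                    apply hau
                    linear_combination h)]
                  simp
              · rfl
              · rw [h1' _ _ (by rw [wt_shift T L h3 h4]; exact hs) (by intro h; apply hv2; linear_combination -h), mul_zero]
            · intro h; exact absurd (Finset.mem_univ v) h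
          have h3 := hc'q (p0.1 - v.2.1.2, s)
          rw [hc'0, Finsupp.zero_apply, hsum] at h3
          obtain ⟨M, hM⟩ : ∃ M, M = mm (s + Finsupp.single v 1) := ⟨_, rfl⟩
          obtain ⟨r, hr⟩ : ∃ r, r = c (p0.1 - v.2.1.2, s) := ⟨_, rfl⟩
          rw [← hM] at h3 hAv
          rw [← hr] at h3
          have hA' : (Aw T L s : K) = (M : K) + A0 - (v.2.1.1 : ℚ) := by
            have h5 : Aw T L s = (M : ℚ) + A0 - v.2.1.1 := by linarith
            rw [h5]
            push_cast
            ring
          have e : X * derivative (X ^ M * r0) = C (M : K) * (X ^ M * r0) + X ^ M * (X * derivative r0) := by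
            rw [derivative_mul, derivative_X_pow]
            rcases M with _ | M
            · simp
            · rw [Nat.add_sub_cancel, pow_succ]
              push_cast
              ring
          have h4 := poly2a (μ := -v.2.1.2) (b := v.2.1.1)
            (κ := -((s v + 1 : ℕ) : K) * κ (s + Finsupp.single v 1)) (w := X ^ M * r0) (r := r)
            (hT _ v.2.2).1 (hT _ v.2.2).2.1 (Or.inl (neg_ne_zero.2 hv2))
            (mul_ne_zero (pow_ne_zero _ X_ne_zero) hr00) (by
              rw [e]
              simp only [hA', C_sub, C_add] at h3
              simp only [C_neg]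
              linear_combination (-X ^ M) * h3)
          rcases mul_eq_zero.1 h4 with h5 | h5
          · rw [neg_eq_zero] at h5
            exact Nat.cast_ne_zero.2 (Nat.succ_ne_zero (s v)) h5
          · exact hκv h5
        -- the equation at the level zero of the exponentials
        have hii : ∀ s : (Fin L × T) →₀ ℕ, wt T L s + 1 = n → ∑ v : Fin L × T, (if v.1.1 = 0 then (0 : K) else
            if s (prA T L v) = 0 then 0 else
              ((s v + 1 : ℕ) : K) * κ (s + Finsupp.single v 1 - Finsupp.single (prA T L v) 1)) = 0 := by
          intro s hs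
          by_cases hex : ∃ v : Fin L × T, v.1.1 ≠ 0 ∧ s (prA T L v) ≠ 0 ∧
              κ (s + Finsupp.single v 1 - Finsupp.single (prA T L v) 1) ≠ 0
          · obtain ⟨v, hv0, hv1, hv2⟩ := hex
            obtain ⟨M, hM⟩ : ∃ M, M = mm (s + Finsupp.single v 1 - Finsupp.single (prA T L v) 1) := ⟨_, rfl⟩
            have hAM : Aw T L s - A0 = M := by
              have h := hmA _ (by rw [wt_shift T L hv0 hv1]; exact hs) hv2
              rw [Aw_shift T L hv1, ← hM] at h
              exact h
            have hwv : ∀ u : Fin L × T, u.1.1 = 0 → wt T L (s + Finsupp.single u 1) = n := by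
              intro u hu
              rw [wt_add, wt_single, hu, ← hs]
            have hsum : ∑ u, FV T L u c (p0.1, s) = C (∑ v : Fin L × T, (if v.1.1 = 0 then (0 : K) else
              if s (prA T L v) = 0 then 0 else
                ((s v + 1 : ℕ) : K) * κ (s + Finsupp.single v 1 - Finsupp.single (prA T L v) 1))) * (X ^ M * r0) := by
              rw [map_sum, Finset.sum_mul]
              refine Finset.sum_congr rfl fun u _ => ?_
              have hu2 : u.2.1.2 ≠ 0 := (hT _ u.2.2).2.2
              unfold FV
              simp only
              split_ifs with h3 h4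
              · rw [hκ _ (hwv u h3), hi u h3 s hs, h1' _ _ (hwv u h3) (by intro h; apply hu2; linear_combination h)]
                simp
              · simp
              · have hws : wt T L (s + Finsupp.single u 1 - Finsupp.single (prA T L u) 1) = n := by
                  rw [wt_shift T L h3 h4]; exact hs
                rw [hκ _ hws, C_mul, C_eq_natCast]
                by_cases h5 : κ (s + Finsupp.single u 1 - Finsupp.single (prA T L u) 1) = 0
                · rw [h5]; simp
                · have h6 := hmA _ hws h5
                  rw [Aw_shift T L h4, hAM] at h6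
                  have h7 : mm (s + Finsupp.single u 1 - Finsupp.single (prA T L u) 1) = M := by
                    exact_mod_cast h6.symm
                  rw [h7]
                  ring
            have h3 := hc'q (p0.1, s)
            rw [hc'0, Finsupp.zero_apply, hsum] at h3
            obtain ⟨r, hr⟩ : ∃ r, r = c (p0.1, s) := ⟨_, rfl⟩
            rw [← hr] at h3
            have hA' : (Aw T L s : K) = (M : K) + A0 := by
              have h5 : Aw T L s = (M : ℚ) + A0 := by linarith
              rw [h5]
              push_cast
              ring
            have e : X * derivative (X ^ M * r0) = C (M : K) * (X ^ M * r0) + X ^ M * (X * derivative r0) := by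
              rw [derivative_mul, derivative_X_pow]
              rcases M with _ | M
              · simp
              · rw [Nat.add_sub_cancel, pow_succ]
                push_cast
                ring
            refine poly2a (μ := 0) (b := 0) (w := X ^ M * r0) (r := r) le_rfl one_pos (Or.inr rfl)
              (mul_ne_zero (pow_ne_zero _ X_ne_zero) hr00) ?_
            rw [e]
            simp only [hA', C_add] at h3
            simp only [Rat.cast_zero, C_0]
            linear_combination (-X ^ M) * h3
          · push Not at hex
            refine Finset.sum_eq_zero fun v _ => ?_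
            split_ifs with h3 h4
            · rfl
            · rfl
            · rw [hex v h3 h4, mul_zero]
        have hκ0 : κ p0.2 ≠ 0 := by
          intro h
          have h3 := hκ p0.2 hp0
          rw [h, C_0, zero_mul, zero_mul] at h3
          exact hne h3
        rcases Nat.eq_zero_or_pos n with hn | hn
        · -- no functions at all
          have h3 : c = Finsupp.single p0 r0 := by
            ext1 q
            rw [Finsupp.single_apply]
            split_ifs with h4
            · rw [← h4]; exact hr0.symm
            · by_contra h5
              have h6 := hc q h5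
              have h7 : wt T L q.2 = n := by omega
              obtain ⟨h8, -⟩ := h1 q h7 h5
              apply h4
              refine Prod.ext h8.symm ?_
              rw [eq_zero_of_wt T L (by omega : wt T L p0.2 = 0), eq_zero_of_wt T L (by omega : wt T L q.2 = 0)]
          rw [h3, eval', Finsupp.linearCombination_single, smul_coe, monA_eq,
            eq_zero_of_wt T L (by omega : wt T L p0.2 = 0), pA_zero, mul_one] at he
          rcases mul_eq_zero.1 he with h4 | h4
          · exact hr00 (by exact_mod_cast h4)
          · exact ex_ne _ h4
        · have hex : ∃ m : ℕ, ∃ s : (Fin L × T) →₀ ℕ, wt T L s = n ∧ κ s ≠ 0 ∧ ∃ v : Fin L × T, v.1.1 = m ∧ s v ≠ 0 := by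
            have h3 : p0.2 ≠ 0 := by
              intro h
              rw [h] at hp0
              have : wt T L 0 = 0 := by unfold wt; simp
              omega
            obtain ⟨v, hv⟩ := Finsupp.ne_iff.1 h3
            exact ⟨_, p0.2, hp0, hκ0, v, rfl, by simpa using hv⟩
          obtain ⟨s', hs', hκs, v, hv, hsv⟩ := Nat.find_spec hex
          have hmin := fun m hm => Nat.find_min hex (m := m) hm
          set m := Nat.find hex with hm
          have hback : s' - Finsupp.single v 1 + Finsupp.single v 1 = s' := by
            ext w
            simp only [Finsupp.add_apply, Finsupp.tsub_apply, Finsupp.single_apply]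
            split_ifs with hw
            · subst hw; omega
            · omega
          by_cases hm0 : m = 0
          · apply hκs
            have h3 := congrArg (wt T L) hback
            rw [wt_add, wt_single] at h3
            rw [← hback]
            exact hi v (by omega) _ (by omega)
          · have hv0 : v.1.1 ≠ 0 := by omega
            have hne := pr_ne T L hv0
            obtain ⟨s, hs⟩ : ∃ s, s = s' - Finsupp.single v 1 + Finsupp.single (prA T L v) 1 := ⟨_, rfl⟩
            have hsp : s (prA T L v) ≠ 0 := by rw [hs]; simp
            have hsv1 : s v + 1 = s' v := by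
              rw [hs]
              simp only [Finsupp.add_apply, Finsupp.tsub_apply, Finsupp.single_eq_same, Finsupp.single_apply, if_neg hne]
              omega
            have hss : s + Finsupp.single v 1 - Finsupp.single (prA T L v) 1 = s' := by
              have h5 : s + Finsupp.single v 1 = s' + Finsupp.single (prA T L v) 1 := by
                rw [hs, add_right_comm, hback]
              rw [h5, add_tsub_cancel_right]
            have hws : wt T L s + 1 = n := by
              have h5 := wt_shift T L hv0 hsp
              rw [hss, hs'] at h5
              omega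
            have h6 := hii s hws
            rw [Finset.sum_eq_single v, if_neg hv0, if_neg hsp, hss] at h6
            · rcases mul_eq_zero.1 h6 with h7 | h7
              · exact Nat.cast_ne_zero.2 (Nat.succ_ne_zero (s v)) h7
              · exact hκs h7
            · intro u _ huv
              split_ifs with h7 h8
              · rfl
              · rfl
              · have h9 : κ (s + Finsupp.single u 1 - Finsupp.single (prA T L u) 1) = 0 := by
                  by_contra h10
                  refine hmin (m - 1) (by omega) ⟨_, by rw [wt_shift T L h7 h8]; exact hws, h10, prA T L v, ?_, ?_⟩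
                  · unfold prA; simp only; omega
                  · have h11 : prA T L u ≠ prA T L v := fun h => huv (pr_inj T L h7 hv0 h)
                    simp only [Finsupp.add_apply, Finsupp.tsub_apply, Finsupp.single_apply, if_neg h11]
                    omega
                rw [h9, mul_zero]
            · intro h; exact absurd (Finset.mem_univ v) h
    intro c hc he
    refine ih c (fun q hq => ?_) he
    have h1 := hc q hq
    rcases lt_or_eq_of_le (Nat.lt_succ_iff.1 h1) with h2 | h2
    · exact h2
    · exact absurd (key _ c rfl hc he q h2) hq

end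

/-- package TWA -/
theorem s_twa : S_TWA := fun _ _ _ T L h => tower T L h

end Pool.Agent.P8H57.AP
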